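import Pool.Agent.R239.Kan.Half

/-!
# Disconnected random Julia sets for the complexified Kan skew product
-/

set_option autoImplicit false

namespace Pool.Agent.Results.MP_aeea9f_an.Disconnected

open Filter Topology MeasureTheory
open scoped OnePoint

/-- The fibre map `f_u(z) = z + α cos(2πu) z (1 - z)` on the plane. -/
noncomputable def fibre (α : ℂ) (u : ℝ) (z : ℂ) : ℂ :=
  z + α * ((Real.cos (2 * Real.pi * u) : ℝ) : ℂ) * z * (1 - z)

/-- The fibre iterates `f_u^n` on the Riemann sphere `OnePoint ℂ`, each fibre map fixing `∞`; the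
base map is `u ↦ L u` (the fibre maps are `1`-periodic in `u`, so no reduction mod `1` is needed). -/
noncomputable def orbit (L : ℕ) (α : ℂ) (u : ℝ) : ℕ → OnePoint ℂ → OnePoint ℂ
  | 0, z => z
  | n + 1, z => OnePoint.map (fibre α ((L : ℝ) ^ n * u)) (orbit L α u n z)

/-- The chordal (spherical) distance on `OnePoint ℂ`. -/
noncomputable def chord : OnePoint ℂ → OnePoint ℂ → ℝ
  | some a, some b => 2 * ‖a - b‖ / (Real.sqrt (1 + ‖a‖ ^ 2) * Real.sqrt (1 + ‖b‖ ^ 2))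
  | some a, none => 2 / Real.sqrt (1 + ‖a‖ ^ 2)
  | none, some b => 2 / Real.sqrt (1 + ‖b‖ ^ 2)
  | none, none => 0

/-- Normality of a sequence of self-maps of the sphere on `U`: every subsequence has a further
subsequence converging, uniformly on compact subsets of `U`, in the spherical metric. -/
def NormalOn (F : ℕ → OnePoint ℂ → OnePoint ℂ) (U : Set (OnePoint ℂ)) : Prop :=
  ∀ φ : ℕ → ℕ, StrictMono φ → ∃ ψ : ℕ → ℕ, StrictMono ψ ∧ ∃ h : OnePoint ℂ → OnePoint ℂ,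
    ∀ K : Set (OnePoint ℂ), K ⊆ U → IsCompact K → ∀ ε : ℝ, 0 < ε →
      ∃ N : ℕ, ∀ m ≥ N, ∀ w ∈ K, chord (F (φ (ψ m)) w) (h w) < ε

/-- The random Fatou set over `u`. -/
def fatou (L : ℕ) (α : ℂ) (u : ℝ) : Set (OnePoint ℂ) :=
  {z | ∃ U : Set (OnePoint ℂ), IsOpen U ∧ z ∈ U ∧ NormalOn (orbit L α u) U}

/-- The random Julia set over `u`. -/
def julia (L : ℕ) (α : ℂ) (u : ℝ) : Set (OnePoint ℂ) := (fatou L α u)ᶜ

lemma chord_eq : chord = R239.Kan.chord := by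
  funext x y
  rcases x with _ | a <;> rcases y with _ | b <;> rfl

lemma orbit_eq (L : ℕ) (α : ℂ) (u : ℝ) : orbit L α u = R239.Kan.orbS (R239.Kan.aseq L α u) := by
  funext n z
  induction n with
  | zero => rfl
  | succ n ih =>
    rw [orbit, R239.Kan.orbS, ih]
    rfl

lemma julia_eq (L : ℕ) (α : ℂ) (u : ℝ) :
    julia L α u = (R239.Kan.fatouS (R239.Kan.aseq L α u))ᶜ := by
  unfold julia fatou R239.Kan.fatouS NormalOn R239.Kan.NormalOn
  rw [orbit_eq, chord_eq]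

open R239.Kan

/-- near the base point 1/4 a half plane escapes -/
lemma half {L : ℕ} (hL : 1 < L) {α : ℂ} (hα0 : 0 < ‖α‖) (hα : ‖α‖ < 1) {C : ℝ} {n1 : ℕ}
    (hn1 : 3 ≤ n1) (hC1 : C ≤ 3 * 2 ^ n1) (hC2 : 1 + 4 / ‖α‖ ≤ 3 * 2 ^ n1)
    (hC3 : C ≤ 0.2 * 1.1 ^ (n1 - 3)) {δ : ℝ} (hδ0 : 0 < δ) (hδ : δ ≤ 1 / 100 / (L : ℝ) ^ n1)
    (h0 : aseq L α (1 / 4 + δ) 0 ≠ 0) :
    ∃ e : ℂ, e ≠ 0 ∧ ∀ y : ℂ, (e * (y - (1 + aseq L α (1 / 4 + δ) 0) ^ 2 /
      (4 * aseq L α (1 / 4 + δ) 0))).re ≤ 0 →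
      C ≤ ‖orb (sh 1 (aseq L α (1 / 4 + δ))) (n1 - 1) y‖ := by
  rcases Nat.even_or_odd L with h | h
  · exact half_even hL h hα0 hα hn1 hC1 hC2 hδ0 hδ h0
  · by_cases h3 : L = 3
    · subst h3
      obtain ⟨e, he, h⟩ := half_three hα hn1 hδ0 hδ h0
      exact ⟨e, he, fun y hy => hC3.trans (h y hy)⟩
    · have h5 : 5 ≤ L := by
        obtain ⟨k, hk⟩ := h
        omega
      obtain ⟨e, he, h⟩ := half_odd5 h5 h hα hn1 hδ0 hδ h0
      exact ⟨e, he, fun y hy => hC3.trans (h y hy)⟩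

/-- For every integer `L > 1` and every complex `α` with `0 < |α| < 1`, the random Julia set over
Lebesgue almost every `u` is disconnected. -/
theorem ae_disconnected {L : ℕ} (hL : 1 < L) {α : ℂ} (hα0 : 0 < ‖α‖) (hα : ‖α‖ < 1) :
    ∀ᵐ u : ℝ, ¬ IsPreconnected (julia L α u) := by
  have hL0 : (0 : ℝ) < L := by
    have : 0 < L := by omega
    exact_mod_cast this
  set C : ℝ := CE α 400 with hC
  have hC2 : 2 ≤ C := two_le_CE α 400
  -- the number of steps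
  obtain ⟨n1, hn1, hn2, hn3, hn4⟩ : ∃ n1 : ℕ, 3 ≤ n1 ∧ C ≤ 3 * 2 ^ n1 ∧
      1 + 4 / ‖α‖ ≤ 3 * (2 : ℝ) ^ n1 ∧ C ≤ 0.2 * 1.1 ^ (n1 - 3) := by
    have t1 : Tendsto (fun n : ℕ => 3 * (2 : ℝ) ^ n) atTop atTop :=
      (tendsto_pow_atTop_atTop_of_one_lt (by norm_num)).const_mul_atTop (by norm_num)
    have t2 : Tendsto (fun n : ℕ => 0.2 * (1.1 : ℝ) ^ (n - 3)) atTop atTop :=
      ((tendsto_pow_atTop_atTop_of_one_lt (by norm_num)).comp
        (tendsto_sub_atTop_nat 3)).const_mul_atTop (by norm_num)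
    have h1 := (eventually_ge_atTop 3).and ((t1.eventually_ge_atTop C).and
      ((t1.eventually_ge_atTop (1 + 4 / ‖α‖)).and (t2.eventually_ge_atTop C)))
    obtain ⟨n, h⟩ := h1.exists
    exact ⟨n, h⟩
  have hLn : (0 : ℝ) < (L : ℝ) ^ n1 := by positivity
  -- the good set
  set S : Set ℝ := Set.Icc (1 / 4) (1 / 4 + 1 / 100 / (L : ℝ) ^ n1) ∩
    {x | (L : ℝ) ^ n1 * x ∈ GE L 400} with hS
  have hSc : IsCompact S := isCompact_Icc.inter_right
    ((GE_closed L 400).preimage (continuous_const.mul continuous_id))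
  have hSpos : volume S ≠ 0 := by
    intro h0
    have hbad : volume {x | x ∈ Set.Icc (1 / 4 : ℝ) (1 / 4 + ((1 : ℕ) : ℝ) / (L : ℝ) ^ n1) ∧
        (L : ℝ) ^ n1 * x ∈ (GE L 400)ᶜ} ≤ ENNReal.ofReal (1 / 200 / (L : ℝ) ^ n1) := by
      rw [volume_periodic_scale (GE_closed L 400).measurableSet.compl
        (fun x => not_congr (GE_periodic L 400 x)) _ _ hLn 1]
      have h1 := GE_compl (L := L) (by omega) (M := 400) (by norm_num)
      calc ENNReal.ofReal (((1 : ℕ) : ℝ) / (L : ℝ) ^ n1) * volume ((GE L 400)ᶜ ∩ Set.Ioc 0 1)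
          ≤ ENNReal.ofReal (((1 : ℕ) : ℝ) / (L : ℝ) ^ n1) * ENNReal.ofReal (2 / 400) := by gcongr
        _ = ENNReal.ofReal (1 / 200 / (L : ℝ) ^ n1) := by
            rw [← ENNReal.ofReal_mul (by positivity)]
            congr 1
            push_cast
            field_simp
            norm_num
    have hsub : Set.Icc (1 / 4 : ℝ) (1 / 4 + 1 / 100 / (L : ℝ) ^ n1) ⊆ S ∪
        {x | x ∈ Set.Icc (1 / 4 : ℝ) (1 / 4 + ((1 : ℕ) : ℝ) / (L : ℝ) ^ n1) ∧
        (L : ℝ) ^ n1 * x ∈ (GE L 400)ᶜ} := by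
      intro x hx
      by_cases h : (L : ℝ) ^ n1 * x ∈ GE L 400
      · exact Or.inl ⟨hx, h⟩
      · refine Or.inr ⟨⟨hx.1, hx.2.trans ?_⟩, h⟩
        have : 1 / 100 / (L : ℝ) ^ n1 ≤ ((1 : ℕ) : ℝ) / (L : ℝ) ^ n1 := by
          gcongr
          norm_num
        linarith
    have h2 := (measure_mono (μ := volume) hsub).trans (measure_union_le _ _)
    rw [h0, zero_add, Real.volume_Icc] at h2
    have h3 := h2.trans hbad
    rw [ENNReal.ofReal_le_ofReal_iff (by positivity)] at h3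
    have h4 : 1 / 200 / (L : ℝ) ^ n1 < 1 / 100 / (L : ℝ) ^ n1 := by
      gcongr
      norm_num
    linarith
  have hfreq := ae_frequently (L := L) (by omega) (K := fun i => GE L ((i : ℝ) + 1))
    (fun i => (GE_closed _ _).measurableSet) (fun i x => GE_periodic _ _ x)
    (fun i j hij => GE_mono (by positivity) (by
      have : (i : ℝ) ≤ j := by exact_mod_cast hij
      linarith)) (ae_GE (by omega))
  filter_upwards [ae_GE (L := L) (by omega), hfreq, ae_visit hL hSc hSpos] with u ⟨i, hi⟩ ⟨j, hj⟩ ⟨n, k, s, hs, hsu⟩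
  rw [julia_eq]
  have hsh : sh n (aseq L α u) = aseq L α s := by rw [sh_aseq, hsu, aseq_add_int]
  have hne : ∀ m, aseq L α u m ≠ 0 := by
    intro m hm
    rw [aseq, mul_eq_zero] at hm
    rcases hm with h | h
    · rw [h, norm_zero] at hα0
      exact lt_irrefl _ hα0
    · have h1 : 1 / (((i : ℝ) + 1) * 2 ^ m) ≤ |cr L m u| := hi m
      have h2 : cr L m u = 0 := by exact_mod_cast h
      rw [h2, abs_zero] at h1
      have h3 : 0 < 1 / (((i : ℝ) + 1) * 2 ^ m) := by positivity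
      linarith
  have hn0 : aseq L α u n = aseq L α s 0 := by
    rw [← hsh]
    simp [sh]
  obtain ⟨⟨hs1, hs2⟩, hs3⟩ := hs
  set δ : ℝ := s - 1 / 4 with hδ
  have hsδ : s = 1 / 4 + δ := by rw [hδ]; ring
  have hδ0 : 0 < δ := by
    refine lt_of_le_of_ne (by linarith) fun h => ?_
    apply hne n
    rw [hn0, hsδ, ← h, aseq]
    have : cr L 0 (1 / 4 + 0) = 0 := by
      unfold cr
      rw [show 2 * Real.pi * ((L : ℝ) ^ 0 * (1 / 4 + 0)) = Real.pi / 2 by ring,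
        Real.cos_pi_div_two]
    rw [this]
    simp
  have hδ1 : δ ≤ 1 / 100 / (L : ℝ) ^ n1 := by rw [hδ]; linarith
  have h0 : aseq L α (1 / 4 + δ) 0 ≠ 0 := by
    rw [← hsδ, ← hn0]
    exact hne n
  obtain ⟨e, he0, he⟩ := half hL hα0 hα hn1 hn2 hn3 hn4 hδ0 hδ1 h0
  have hr : Rec (CE α ((j : ℝ) + 1)) (aseq L α u) := by
    refine hj.mono fun m hm => ?_
    rw [sh_aseq]
    exact esc_of_GE hα0 (by positivity) hm
  refine disconnected_of_halfplane (two_le_CE _ _) (two_le_CE _ _) hr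
    (esc_of_GE hα0 (by positivity) hi) n (hne n) e he0 fun y hy => ?_
  rw [hn0, hsδ] at hy
  have h1 := he y hy
  have h2 : sh (n + 1) (aseq L α u) = sh 1 (aseq L α (1 / 4 + δ)) := by
    rw [← hsδ, ← hsh, sh_sh]
  rw [h2, ← out_sh _ (n1 - 1)]
  refine out_of_esc hC2 ?_ h1
  rw [sh_sh, show 1 + (n1 - 1) = n1 by omega, sh_aseq, ← hsδ]
  exact esc_of_GE hα0 (by norm_num) hs3

/-- For every integer `L > 1` and every complex `α` with `0 < |α| < 1` there is a measurable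
subset of `[0, 1)` of full Lebesgue measure over which the random Julia set is disconnected. -/
theorem result : ∀ L : ℕ, 1 < L → ∀ α : ℂ, 0 < ‖α‖ → ‖α‖ < 1 →
    ∃ Λ : Set ℝ, Λ ⊆ Set.Ico 0 1 ∧ MeasurableSet Λ ∧ volume Λ = 1 ∧
      ∀ u ∈ Λ, ¬ IsPreconnected (julia L α u) := by
  intro L hL α hα0 hα
  have hae := ae_disconnected hL hα0 hα
  obtain ⟨N, hNsub, hNm, hN0⟩ := exists_measurable_superset_of_null (ae_iff.1 hae)
  refine ⟨Set.Ico 0 1 \ N, Set.sdiff_subset, measurableSet_Ico.diff hNm, ?_, fun u hu => ?_⟩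
  · rw [measure_sdiff_null hN0, Real.volume_Ico]
    norm_num
  · by_contra hcon
    exact hu.2 (hNsub (by
      rw [Set.mem_ofPred_eq, not_not]
      exact hcon))

end Pool.Agent.Results.MP_aeea9f_an.Disconnected
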